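import Pool.Agent.MP_e13f12_an.AppellCount

/-!
# No common hypercyclic vector for the family `a T + b I`, `a > 0`, `b` real

The proof is in `Pool.Agent.MP_e13f12_an.AppellCount`.
-/

namespace Pool.Agent.Results.MP_e13f12_an.NoCommonHypercyclic

/-- `x` is a hypercyclic vector for the operator `S`: the orbit `{S ^ n x : n ∈ ℕ}` is dense. -/
def IsHypercyclicVector {X : Type*} [AddCommGroup X] [Module ℝ X] [TopologicalSpace X]
    (S : X →L[ℝ] X) (x : X) : Prop :=
  Dense (Set.range fun n : ℕ => (S ^ n) x)

/-- For every nonzero real Hausdorff locally convex space `X` (in particular for every real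
Frechet space) and every continuous linear operator `T` on `X`, no vector `x : X` is hypercyclic
for all the operators `a T + b I` with `a > 0` and `b : ℝ`. -/
theorem result {X : Type*} [AddCommGroup X] [Module ℝ X] [TopologicalSpace X]
    [IsTopologicalAddGroup X] [ContinuousSMul ℝ X] [LocallyConvexSpace ℝ X] [T2Space X]
    [Nontrivial X] (T : X →L[ℝ] X) :
    ¬ ∃ x : X, ∀ a : ℝ, 0 < a → ∀ b : ℝ,
      IsHypercyclicVector (a • T + b • ContinuousLinearMap.id ℝ X) x :=
  Pool.Agent.MP_e13f12_an.AppellCount.no_common_dense_orbit T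

end Pool.Agent.Results.MP_e13f12_an.NoCommonHypercyclic
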